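import Pool.Agent.Run7.h432.LV.Stm3

/-!
# Project LV, piece EX: exchange of two blocks
-/

set_option autoImplicit false

namespace Run7.h763.LV

open Run7.h432.LV Equiv

universe u

variable {U : Type u} [Ring U] {m : ℕ}

/-- the word over both blocks -/
def WW (w w' : List (U ⊕ Fin m)) (c : U) : List (U ⊕ (Fin m ⊕ Fin m)) :=
  w.map (Sum.map id Sum.inl) ++ ([Sum.inl c] ++ w'.map (Sum.map id Sum.inr))

lemma ev_WW (w w' : List (U ⊕ Fin m)) (c : U) (a b : Fin m → U) :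
    ev (WW w w' c) (Sum.elim a b) = ev w a * c * ev w' b := by
  unfold ev WW
  rw [List.map_append, List.map_append, List.prod_append, List.prod_append, List.map_map,
    List.map_map]
  have h1 : Sum.elim id (Sum.elim a b) ∘ Sum.map id Sum.inl = (Sum.elim id a : U ⊕ Fin m → U) := by
    ext (z | z) <;> rfl
  have h2 : Sum.elim id (Sum.elim a b) ∘ Sum.map id Sum.inr = (Sum.elim id b : U ⊕ Fin m → U) := by
    ext (z | z) <;> rfl
  rw [h1, h2]
  simp [mul_assoc]

lemma once_WW {w w' : List (U ⊕ Fin m)} (hw : Once w) (hw' : Once w') (c : U) :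
    Once (WW w w' c) := by
  constructor
  · unfold WW
    rw [List.filterMap_append, List.filterMap_append, List.filterMap_map, List.filterMap_map]
    have h1 : w.filterMap (Sum.getRight? ∘ Sum.map id Sum.inl) =
        (w.filterMap Sum.getRight?).map (Sum.inl : Fin m → Fin m ⊕ Fin m) := by
      rw [List.map_filterMap]
      congr 1
      ext (z | z) <;> simp
    have h2 : w'.filterMap (Sum.getRight? ∘ Sum.map id Sum.inr) =
        (w'.filterMap Sum.getRight?).map (Sum.inr : Fin m → Fin m ⊕ Fin m) := by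
      rw [List.map_filterMap]
      congr 1
      ext (z | z) <;> simp
    rw [h1, h2]
    have h3 : List.filterMap Sum.getRight? [(Sum.inl c : U ⊕ (Fin m ⊕ Fin m))] = [] := by simp
    rw [h3, List.nil_append]
    apply List.Nodup.append (hw.1.map Sum.inl_injective) (hw'.1.map Sum.inr_injective)
    intro z hz hz'
    rw [List.mem_map] at hz hz'
    obtain ⟨p, _, rfl⟩ := hz
    obtain ⟨q, _, hq⟩ := hz'
    exact absurd hq (by simp)
  · rintro (i | i)
    · unfold WW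
      rw [List.mem_append]
      left
      rw [List.mem_map]
      exact ⟨Sum.inr i, hw.2 i, rfl⟩
    · unfold WW
      rw [List.mem_append, List.mem_append]
      right
      right
      rw [List.mem_map]
      exact ⟨Sum.inr i, hw'.2 i, rfl⟩

/-- the terms -/
def fx (w w' : List (U ⊕ Fin m)) (c : U) (x y : Fin m → U) (σ : Perm (Fin m ⊕ Fin m)) : U :=
  (Perm.sign σ : ℤ) • ev (WW w w' c) (Sum.elim x y ∘ σ)

open Classical in
/-- the places of the second block with a value of the first block -/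
noncomputable def BB (σ : Perm (Fin m ⊕ Fin m)) : Finset (Fin m) :=
  Finset.univ.filter fun l => ∃ i, σ (Sum.inr l) = Sum.inl i

lemma mem_BB (σ : Perm (Fin m ⊕ Fin m)) (l : Fin m) :
    l ∈ BB σ ↔ ∃ i, σ (Sum.inr l) = Sum.inl i := by
  simp [BB]

lemma BB_sumCongr (σ₁ σ₂ : Perm (Fin m)) : BB (Perm.sumCongr σ₁ σ₂) = ∅ := by
  rw [Finset.eq_empty_iff_forall_notMem]
  intro l hl
  rw [mem_BB] at hl
  obtain ⟨i, hi⟩ := hl
  simp at hi

lemma of_BB (σ : Perm (Fin m ⊕ Fin m)) (h : BB σ = ∅) : σ ∈ (Perm.sumCongrHom (Fin m) (Fin m)).range := by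
  apply Perm.mem_sumCongrHom_range_of_perm_mapsTo_inl
  rw [Perm.perm_mapsTo_inl_iff_mapsTo_inr]
  rintro _ ⟨l, rfl⟩
  rcases hs : σ (Sum.inr l) with i | i
  · exact absurd ((mem_BB σ l).2 ⟨i, hs⟩) (by rw [h]; simp)
  · exact ⟨i, rfl⟩

lemma fx_sumCongr (w w' : List (U ⊕ Fin m)) (c : U) (x y : Fin m → U) (σ₁ σ₂ : Perm (Fin m)) :
    fx w w' c x y (Perm.sumCongr σ₁ σ₂) =
      ((Perm.sign σ₁ : ℤ) • ev w (x ∘ σ₁)) * c * ((Perm.sign σ₂ : ℤ) • ev w' (y ∘ σ₂)) := by
  unfold fx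
  have h1 : Sum.elim x y ∘ (Perm.sumCongr σ₁ σ₂) = Sum.elim (x ∘ σ₁) (y ∘ σ₂) := by
    ext (z | z) <;> rfl
  rw [h1, ev_WW, Perm.sign_sumCongr, Units.val_mul, mul_smul, smul_mul_assoc, smul_mul_assoc,
    mul_smul_comm]

lemma L1 (w w' : List (U ⊕ Fin m)) (c : U) (x y : Fin m → U) :
    alt w x * c * alt w' y = ∑ σ : Perm (Fin m ⊕ Fin m), if BB σ = ∅ then fx w w' c x y σ else 0 := by
  classical
  rw [← Finset.sum_filter]
  unfold alt
  rw [Finset.sum_mul, Finset.sum_mul]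
  simp_rw [Finset.mul_sum]
  rw [← Finset.sum_product', Finset.univ_product_univ]
  refine Finset.sum_nbij (fun σ => Perm.sumCongr σ.1 σ.2) ?_ ?_ ?_ ?_
  · rintro σ _
    rw [Finset.mem_filter]
    exact ⟨Finset.mem_univ _, BB_sumCongr _ _⟩
  · rintro σ _ τ _ h
    exact Perm.sumCongrHom_injective h
  · rintro σ hσ
    rw [Finset.mem_coe, Finset.mem_filter] at hσ
    obtain ⟨τ, hτ⟩ := of_BB σ hσ.2
    exact ⟨τ, by simp, hτ⟩
  · rintro σ _
    rw [fx_sumCongr]

lemma sign_via {n : ℕ} (ρ : Perm (Fin n)) (j : Fin n ↪ Fin m ⊕ Fin m) :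
    Perm.sign (Perm.viaEmbedding ρ j) = Perm.sign ρ := by
  classical
  unfold Perm.viaEmbedding
  convert Perm.sign_extendDomain ρ (Equiv.ofInjective j.1 j.2)

lemma L2 (hALF : S_ALF.{u}) (hCOS : S_COS.{u}) (I : Ideal U) (hI : Cap I (m + 1))
    {w w' : List (U ⊕ Fin m)} (hw : Once w) (hw' : Once w') (c : U) (x y : Fin m → U)
    (hx : ∀ i, x i ∈ I) (hy : ∀ i, y i ∈ I) (T : Finset (Fin m)) (hT : T ≠ Finset.univ) :
    ∑ σ : Perm (Fin m ⊕ Fin m), (if T ⊆ BB σ then fx w w' c x y σ else 0) = 0 := by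
  classical
  obtain ⟨l₀, hl₀⟩ : ∃ l, l ∉ T := by
    by_contra h
    push Not at h
    exact hT (Finset.eq_univ_iff_forall.2 h)
  let j : Fin (m + 1) ↪ Fin m ⊕ Fin m :=
    ⟨Fin.cons (Sum.inr l₀) Sum.inl, Fin.cons_injective_iff.2 ⟨by simp, Sum.inl_injective⟩⟩
  have hj : ∀ l ∈ T, (Sum.inr l : Fin m ⊕ Fin m) ∉ Set.range j := by
    rintro l hl ⟨k, hk⟩
    rcases Fin.eq_zero_or_eq_succ k with rfl | ⟨k, rfl⟩
    · have : (Sum.inr l₀ : Fin m ⊕ Fin m) = Sum.inr l := hk
      rw [Sum.inr.injEq] at this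
      exact hl₀ (this ▸ hl)
    · have : (Sum.inl k : Fin m ⊕ Fin m) = Sum.inr l := hk
      exact absurd this (by simp)
  apply hCOS U (Perm (Fin m ⊕ Fin m)) (Perm (Fin (m + 1))) (Perm.viaEmbeddingHom j)
    (Perm.viaEmbeddingHom_injective j)
  intro σ
  have h1 : ∀ ρ : Perm (Fin (m + 1)), (T ⊆ BB (σ * Perm.viaEmbeddingHom j ρ)) ↔ T ⊆ BB σ := by
    intro ρ
    have h2 : ∀ l ∈ T, (l ∈ BB (σ * Perm.viaEmbeddingHom j ρ) ↔ l ∈ BB σ) := by
      intro l hl
      rw [mem_BB, mem_BB, Perm.mul_apply, Perm.viaEmbeddingHom_apply,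
        Perm.viaEmbedding_apply_of_notMem _ _ _ (hj l hl)]
    constructor
    · intro h l hl
      exact (h2 l hl).1 (h hl)
    · intro h l hl
      exact (h2 l hl).2 (h hl)
  by_cases hTB : T ⊆ BB σ
  · have h3 : ∀ ρ : Perm (Fin (m + 1)),
        (if T ⊆ BB (σ * Perm.viaEmbeddingHom j ρ) then
          fx w w' c x y (σ * Perm.viaEmbeddingHom j ρ) else 0) =
        (Perm.sign σ : ℤ) • ((Perm.sign ρ : ℤ) •
          ev (WW w w' c) ((Sum.elim x y ∘ σ) ∘ Perm.viaEmbedding ρ j)) := by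
      intro ρ
      rw [if_pos ((h1 ρ).2 hTB)]
      unfold fx
      rw [Perm.sign_mul, Units.val_mul, mul_smul, Perm.viaEmbeddingHom_apply,
        sign_via]
      rfl
    rw [Finset.sum_congr rfl fun ρ _ => h3 ρ, ← Finset.smul_sum,
      hALF U I (m + 1) hI (Fin m ⊕ Fin m) (ev (WW w w' c))
        (AddSubgroup.subset_closure ⟨_, once_WW hw hw' c, rfl⟩) j (Sum.elim x y ∘ σ) ?_, smul_zero]
    have hv : ∀ z, Sum.elim x y z ∈ I := by
      rintro (k | k)
      · exact hx k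
      · exact hy k
    intro i
    exact hv _
  · apply Finset.sum_eq_zero
    intro ρ _
    rw [if_neg fun h => hTB ((h1 ρ).1 h)]

lemma L3 (g : Perm (Fin m ⊕ Fin m) → U) :
    (∑ σ : Perm (Fin m ⊕ Fin m), if BB σ = ∅ then g σ else 0) =
      ∑ T : Finset (Fin m), ((-1 : ℤ) ^ T.card) •
        ∑ σ : Perm (Fin m ⊕ Fin m), (if T ⊆ BB σ then g σ else 0) := by
  classical
  simp_rw [Finset.smul_sum]
  rw [Finset.sum_comm]
  apply Finset.sum_congr rfl
  intro σ _
  have h1 : ∀ T : Finset (Fin m), ((-1 : ℤ) ^ T.card) • (if T ⊆ BB σ then g σ else 0) =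
      if T ∈ (BB σ).powerset then ((-1 : ℤ) ^ T.card) • g σ else 0 := by
    intro T
    by_cases h : T ⊆ BB σ
    · rw [if_pos h, if_pos (Finset.mem_powerset.2 h)]
    · rw [if_neg h, if_neg fun h' => h (Finset.mem_powerset.1 h'), smul_zero]
  rw [Finset.sum_congr rfl fun T _ => h1 T, Finset.sum_ite_mem, Finset.univ_inter,
    ← Finset.sum_smul, Finset.sum_powerset_neg_one_pow_card]
  split_ifs <;> simp

/-- the exchange of the blocks -/
def kap (m : ℕ) : Perm (Fin m ⊕ Fin m) := Equiv.sumComm (Fin m) (Fin m)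

lemma sign_kap (m : ℕ) : (Perm.sign (kap m) : ℤ) = (-1) ^ m := by
  have h1 : Perm.sign (kap m) =
      Perm.sign (Equiv.prodCongrRight fun _ : Fin m => Equiv.swap true false) := by
    apply Perm.sign_eq_sign_of_equiv _ _
      ((Equiv.boolProdEquivSum (Fin m)).symm.trans (Equiv.prodComm _ _))
    rintro (i | i) <;> rfl
  rw [h1, Perm.sign_prodCongrRight]
  simp

lemma L4 (w w' : List (U ⊕ Fin m)) (c : U) (x y : Fin m → U) :
    ∑ σ : Perm (Fin m ⊕ Fin m), (if Finset.univ ⊆ BB σ then fx w w' c x y σ else 0) =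
      ((-1 : ℤ) ^ m) • ∑ σ : Perm (Fin m ⊕ Fin m), (if BB σ = ∅ then fx w w' c y x σ else 0) := by
  classical
  rw [Finset.smul_sum, ← Equiv.sum_comp (Equiv.mulLeft (kap m))]
  apply Finset.sum_congr rfl
  intro σ _
  rw [Equiv.coe_mulLeft]
  have h1 : (Finset.univ ⊆ BB (kap m * σ)) ↔ BB σ = ∅ := by
    rw [Finset.eq_empty_iff_forall_notMem]
    have h2 : ∀ l, l ∈ BB (kap m * σ) ↔ l ∉ BB σ := by
      intro l
      rw [mem_BB, mem_BB, Perm.mul_apply]
      rcases σ (Sum.inr l) with i | i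
      · simp [kap]
      · simp [kap]
    constructor
    · intro h l
      exact (h2 l).1 (h (Finset.mem_univ l))
    · intro h l _
      exact (h2 l).2 (h l)
  by_cases hB : BB σ = ∅
  · rw [if_pos (h1.2 hB), if_pos hB]
    unfold fx
    rw [Perm.sign_mul, Units.val_mul, mul_smul, sign_kap]
    congr 3
    have h3 : Sum.elim x y ∘ (kap m) = Sum.elim y x := by
      ext (z | z) <;> rfl
    rw [Perm.coe_mul, ← Function.comp_assoc, h3]
  · rw [if_neg fun h => hB (h1.1 h), if_neg hB, smul_zero]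

theorem t_EX (hALF : S_ALF.{u}) (hCOS : S_COS.{u}) : S_EX.{u} := by
  intro U _ I _ m hI w w' hw hw' c x y hx hy
  classical
  rw [L1 w w' c x y, L3, Finset.sum_eq_single (Finset.univ : Finset (Fin m))]
  · rw [L4, ← L1, Finset.card_univ, Fintype.card_fin, ← mul_smul, ← mul_pow]
    simp
  · intro T _ hT
    rw [L2 hALF hCOS I hI hw hw' c x y hx hy T hT, smul_zero]
  · intro h
    exact absurd (Finset.mem_univ _) h

end Run7.h763.LV
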